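import Pool.Agent.Work.MP_8c67d3_co.Transfer

/-!
Block L4: planarity passes to the limit.
-/

set_option autoImplicit false

namespace Tess

open CMap

/-- A finite set of faces without boundary is empty. -/
lemma faces_empty {D : Type} {M : CMap D} {Δ : ℕ} (hM : M.Pre Δ) (Y : Finset M.F)
    (hY : ∀ e, M.fac e ∈ Y → M.fac (M.inv e) ∈ Y) : Y = ∅ := by
  classical
  rw [Finset.eq_empty_iff_forall_notMem]
  intro f hf
  obtain ⟨d, rfl⟩ := M.fac_surj f
  have hY' : ∀ e, M.fac e ∈ Y ↔ M.fac (M.inv e) ∈ Y := fun e =>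
    ⟨hY e, fun h => by have := hY _ h; rwa [M.inv_inv'] at this⟩
  have hall : ∀ e, M.fac e ∈ Y := by
    refine M.induction_dart hM.connected (P := fun e => M.fac e ∈ Y) (fun e => ?_)
      (fun e he => hY e he) d hf
    rw [hY' (M.rot e), M.fac_inv_rot]
  have hfin : (Set.univ : Set D).Finite := by
    have h1 : (Set.univ : Set D) ⊆ ⋃ f ∈ Y, {e | M.fac e = f} := by
      intro e _
      exact Set.mem_iUnion₂.2 ⟨M.fac e, hall e, rfl⟩
    refine Set.Finite.subset (Set.Finite.biUnion Y.finite_toSet fun f _ => ?_) h1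
    obtain ⟨e, rfl⟩ := M.fac_surj f
    exact M.finite_fac (hM.face_pos e)
  have := hM.infinite
  exact Set.infinite_univ hfin

/-- All faces of a finite set of faces with short boundary darts are given by short words. -/
lemma faces_short {D : Type} {M : CMap D} {d : D} {Δ K N : ℕ} (hM : M.Pre Δ) (X : Finset M.F)
    (hX : X.card ≤ N)
    (hb : ∀ e, M.fac e ∈ X → M.fac (M.inv e) ∉ X → ∃ w : List Bool, w.length ≤ K ∧ M.run w d = e) :
    ∀ f ∈ X, ∃ w : List Bool, w.length ≤ K + N * (2 * Δ + 1) ∧ M.fac (M.run w d) = f := by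
  classical
  let S : ℕ → Finset M.F := fun j =>
    X.filter fun f => ∃ w : List Bool, w.length ≤ K + j * (2 * Δ + 1) ∧ M.fac (M.run w d) = f
  have hmem : ∀ j f, f ∈ S j ↔ f ∈ X ∧ ∃ w : List Bool, w.length ≤ K + j * (2 * Δ + 1) ∧
      M.fac (M.run w d) = f := fun j f => Finset.mem_filter
  have hmono : ∀ j k, j ≤ k → S j ⊆ S k := by
    intro j k hjk f hf
    rw [hmem] at hf ⊢
    obtain ⟨h1, w, h2, h3⟩ := hf
    exact ⟨h1, w, h2.trans (Nat.add_le_add_left (Nat.mul_le_mul_right _ hjk) _), h3⟩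
  -- stationary implies everything
  have hstat : ∀ j, S (j + 1) = S j → S j = X := by
    intro j hj
    have h1 : X \ S j = ∅ := by
      apply faces_empty hM
      intro e he
      rw [Finset.mem_sdiff] at he ⊢
      obtain ⟨he1, he2⟩ := he
      have he3 : M.fac (M.inv e) ∈ X := by
        by_contra hcon
        obtain ⟨w, hw, rfl⟩ := hb e he1 hcon
        exact he2 ((hmem j _).2 ⟨he1, w, hw.trans (Nat.le_add_right _ _), rfl⟩)
      refine ⟨he3, fun he4 => he2 ?_⟩
      rw [← hj, hmem]
      obtain ⟨-, w, hw, hw'⟩ := (hmem j _).1 he4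
      obtain ⟨i, hi, hi'⟩ := exists_word_of_fac_eq (hM.face_pos _) hw'
      refine ⟨he1, false :: (fw i ++ w), ?_, ?_⟩
      · have h3 := hM.face_le (M.run w d)
        rw [List.length_cons, List.length_append, length_fw, Nat.add_mul]
        omega
      · rw [run_cons_false, hi', M.inv_inv']
    exact Finset.Subset.antisymm (Finset.filter_subset _ _) (Finset.sdiff_eq_empty_iff_subset.1 h1)
  have hex : ∃ j ≤ N, S j = X := by
    by_contra hcon
    push Not at hcon
    have hcard : ∀ j ≤ N + 1, j ≤ (S j).card := by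
      intro j
      induction j with
      | zero => intro _; exact Nat.zero_le _
      | succ j ih =>
        intro hj
        have h1 := ih (by omega)
        have h2 : S j ⊂ S (j + 1) := by
          refine lt_of_le_of_ne (hmono j (j + 1) (Nat.le_succ j)) fun h => ?_
          exact hcon j (by omega) (hstat j h.symm)
        have h3 := Finset.card_lt_card h2
        omega
    have h1 := hcard (N + 1) le_rfl
    have h2 : (S (N + 1)).card ≤ X.card := Finset.card_le_card (Finset.filter_subset _ _)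
    omega
  obtain ⟨j, hj, hjX⟩ := hex
  intro f hf
  rw [← hjX, hmem] at hf
  obtain ⟨-, w, hw, hw'⟩ := hf
  exact ⟨w, hw.trans (Nat.add_le_add_left (Nat.mul_le_mul_right _ hj) _), hw'⟩

theorem planeLimit : PlaneLimitStatement := by
  classical
  intro Δ C D' M' d' hgen hM' happ A hA hAe
  choose wd hwd using hgen
  -- the bound for the words of `A`
  obtain ⟨K, hK⟩ : ∃ K : ℕ, ∀ a ∈ A, (wd a).length ≤ K :=
    ⟨A.sup fun a => (wd a).length, fun a ha => Finset.le_sup (f := fun a => (wd a).length) ha⟩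
  let K' : ℕ := K + (C * A.card) * (2 * Δ + 1)
  obtain ⟨D, M, d, hM, hMp, hMi, hag⟩ := happ (K' + 4 * Δ + 4)
  have hKK' : K ≤ K' := Nat.le_add_right _ _
  -- the corresponding set of darts of `M`
  let τ : D' → D := fun a => M.run (wd a) d
  let B : Finset D := A.image τ
  have hτ : ∀ (w : List Bool) (a : D'), w.length ≤ K' + 4 * Δ + 4 → a ∈ A →
      (M.run w d = τ a ↔ M'.run w d' = a) := by
    intro w a hw ha
    have h1 := hag w (wd a) hw (by have := hK a ha; omega)
    rw [hwd] at h1
    exact h1.symm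
  have hBmem : ∀ w : List Bool, w.length ≤ K' + 4 * Δ + 4 → (M.run w d ∈ B ↔ M'.run w d' ∈ A) := by
    intro w hw
    constructor
    · intro h
      obtain ⟨a, ha, h1⟩ := Finset.mem_image.1 h
      rw [(hτ w a hw ha).1 h1.symm]
      exact ha
    · intro h
      exact Finset.mem_image.2 ⟨_, h, ((hτ w _ hw h).2 rfl).symm⟩
  have hτinj : Set.InjOn τ A := by
    intro a ha b hb hab
    have h1 := (hτ (wd a) b (by have := hK a ha; omega) hb).1 hab
    rwa [hwd] at h1
  have hBinv : ∀ e ∈ B, M.inv e ∈ B := by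
    intro e he
    obtain ⟨a, ha, rfl⟩ := Finset.mem_image.1 he
    have h1 := hBmem (false :: wd a) (by rw [List.length_cons]; have := hK a ha; omega)
    rw [run_cons_false, run_cons_false, hwd] at h1
    exact h1.2 (hA a ha)
  have hvert : ∀ a ∈ A, ∀ b ∈ A, (M'.vert a = M'.vert b ↔ M.vert (τ a) = M.vert (τ b)) := by
    intro a ha b hb
    have h1 := hag.vert_iff (Δ := Δ) (w := wd a) (w' := wd b) (hM.val_pos _) (hM.val_le _)
      (by have := hK a ha; omega) (by have := hK b hb; omega)
    rw [hwd, hwd] at h1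
    exact h1
  have hBe : ∀ v : M.V, Even {e | e ∈ B ∧ M.vert e = v}.ncard := by
    intro v
    by_cases hv : ∃ a ∈ A, M.vert (τ a) = v
    · obtain ⟨a, ha, rfl⟩ := hv
      have h1 : {e | e ∈ B ∧ M.vert e = M.vert (τ a)} = τ '' {b | b ∈ A ∧ M'.vert b = M'.vert a} := by
        ext e
        constructor
        · rintro ⟨he, he'⟩
          obtain ⟨b, hb, rfl⟩ := Finset.mem_image.1 he
          exact ⟨b, ⟨hb, (hvert b hb a ha).2 he'⟩, rfl⟩
        · rintro ⟨b, ⟨hb, hb'⟩, rfl⟩
          exact ⟨Finset.mem_image.2 ⟨b, hb, rfl⟩, (hvert b hb a ha).1 hb'⟩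
      rw [h1, Set.InjOn.ncard_image (hτinj.mono fun b hb => hb.1)]
      exact hAe _
    · have h1 : {e | e ∈ B ∧ M.vert e = v} = ∅ := by
        ext e
        simp only [Set.mem_ofPred_eq, Set.mem_empty_iff_false, iff_false]
        rintro ⟨he, he'⟩
        obtain ⟨a, ha, rfl⟩ := Finset.mem_image.1 he
        exact hv ⟨a, ha, he'⟩
      rw [h1, Set.ncard_empty]
      exact Even.zero
  obtain ⟨Y, hY⟩ := hMp B hBinv hBe
  -- the size of `Y`
  have hYcard : Y.card ≤ C * A.card := by
    refine (hMi Y).trans (Nat.mul_le_mul_left _ ?_)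
    have h1 : {e | M.fac e ∈ Y ∧ M.fac (M.inv e) ∉ Y} ⊆ (B : Set D) := by
      rintro e ⟨he, he'⟩
      rw [Finset.mem_coe, hY]
      exact fun h => he' (h.1 he)
    exact (Set.ncard_le_ncard h1 B.finite_toSet).trans
      (by rw [Set.ncard_coe_finset]; exact Finset.card_image_le)
  have hYshort := faces_short (d := d) (K := K) hM Y hYcard (fun e he he' => by
    have h1 : e ∈ B := by
      rw [hY]
      exact fun h => he' (h.1 he)
    obtain ⟨a, ha, rfl⟩ := Finset.mem_image.1 h1
    exact ⟨wd a, hK a ha, rfl⟩)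
  -- the set of faces of the limit
  have hfinw : Set.Finite {w : List Bool | w.length ≤ K'} := List.finite_length_le Bool K'
  let X' : Finset M'.F := (hfinw.toFinset.filter fun w => M.fac (M.run w d) ∈ Y).image
    fun w => M'.fac (M'.run w d')
  have hX'mem : ∀ f, f ∈ X' ↔ ∃ w : List Bool, w.length ≤ K' ∧ M.fac (M.run w d) ∈ Y ∧
      M'.fac (M'.run w d') = f := by
    intro f
    simp only [X', Finset.mem_image, Finset.mem_filter, Set.Finite.mem_toFinset,
      Set.mem_ofPred_eq, and_assoc]
  have hfac : ∀ w w' : List Bool, w.length ≤ K' + 2 * Δ + 4 → w'.length ≤ K' →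
      (M'.fac (M'.run w d') = M'.fac (M'.run w' d') ↔ M.fac (M.run w d) = M.fac (M.run w' d)) :=
    fun w w' hw hw' => hag.fac_iff (hM.face_pos _) (hM.face_le _) (by omega) (by omega)
  have hX'iff : ∀ w : List Bool, w.length ≤ K' + 2 * Δ + 4 →
      (M'.fac (M'.run w d') ∈ X' ↔ M.fac (M.run w d) ∈ Y) := by
    intro w hw
    rw [hX'mem]
    constructor
    · rintro ⟨u, hu, hu1, hu2⟩
      rw [(hfac w u hw hu).1 hu2.symm]
      exact hu1
    · intro h
      obtain ⟨u, hu, hu'⟩ := hYshort _ h
      refine ⟨u, hu, by rw [hu']; exact h, ?_⟩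
      exact ((hfac w u hw hu).2 hu'.symm).symm
  refine ⟨X', fun e => ?_⟩
  by_cases he : ∃ w : List Bool, w.length ≤ K' + 2 * Δ + 1 ∧ M'.run w d' = e
  · obtain ⟨w, hw, rfl⟩ := he
    have h1 := hX'iff w (by omega)
    have h2 := hX'iff (false :: w) (by rw [List.length_cons]; omega)
    rw [run_cons_false, run_cons_false] at h2
    rw [h1, h2, ← hBmem w (by omega), hY]
  · have hnA : e ∉ A := fun h => he ⟨wd e, by have := hK e h; omega, hwd e⟩
    have h1 : M'.fac e ∉ X' := by
      intro h
      obtain ⟨w, hw, -, hw'⟩ := (hX'mem _).1 h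
      obtain ⟨i, hi, hi'⟩ := exists_word_of_fac_eq (hM'.face_pos _) hw'
      refine he ⟨fw i ++ w, ?_, hi'⟩
      have := hM'.face_le (M'.run w d')
      rw [List.length_append, length_fw]
      omega
    have h2 : M'.fac (M'.inv e) ∉ X' := by
      intro h
      obtain ⟨w, hw, -, hw'⟩ := (hX'mem _).1 h
      obtain ⟨i, hi, hi'⟩ := exists_word_of_fac_eq (hM'.face_pos _) hw'
      refine he ⟨false :: (fw i ++ w), ?_, ?_⟩
      · have := hM'.face_le (M'.run w d')
        rw [List.length_cons, List.length_append, length_fw]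
        omega
      · rw [run_cons_false, hi', M'.inv_inv']
    constructor
    · exact fun h => absurd h hnA
    · intro h
      exact absurd ⟨fun h' => absurd h' h1, fun h' => absurd h' h2⟩ h

end Tess
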