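import Pool.Agent.Work.MP_8c67d3_co.Interface

/-!
Block L1: limits of pointed combinatorial maps.
-/

set_option autoImplicit false

open Filter

namespace Tess

namespace LimitL1

variable {D : ℕ → Type} (M : ∀ j, CMap (D j)) (d : ∀ j, D j)

/-- The dart of the `j`-th map given by a word. -/
def rn (w : List Bool) (j : ℕ) : D j := (M j).run w (d j)

lemma rn_true (w : List Bool) (j : ℕ) : rn M d (true :: w) j = (M j).rot (rn M d w j) := rfl

lemma rn_false (w : List Bool) (j : ℕ) : rn M d (false :: w) j = (M j).inv (rn M d w j) := rfl

/-- Words are equivalent if they give the same darts for most indices. -/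
def st : Setoid (List Bool) where
  r w w' := ∀ᶠ j in (hyperfilter ℕ : Filter ℕ), rn M d w j = rn M d w' j
  iseqv :=
    { refl := fun _ => Eventually.of_forall fun _ => rfl
      symm := fun h => h.mono fun _ h => h.symm
      trans := fun h h' => (h.and h').mono fun _ h => h.1.trans h.2 }

/-- The darts of the limit. -/
abbrev LD : Type := Quotient (st M d)

lemma mk_eq {w w' : List Bool} : (Quotient.mk (st M d) w = Quotient.mk (st M d) w') ↔
    ∀ᶠ j in (hyperfilter ℕ : Filter ℕ), rn M d w j = rn M d w' j :=
  ⟨fun h => Quotient.exact h, fun h => Quotient.sound (s := st M d) h⟩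

/-- Adding a letter. -/
def cons (b : Bool) : LD M d → LD M d :=
  Quotient.map (fun w => b :: w) (by
    intro w w' h
    refine Eventually.mono h fun j hj => ?_
    cases b
    · rw [rn_false, rn_false, hj]
    · rw [rn_true, rn_true, hj])

lemma cons_mk (b : Bool) (w : List Bool) :
    cons M d b (Quotient.mk (st M d) w) = Quotient.mk (st M d) (b :: w) := rfl

lemma rn_rep (w : List Bool) (k j : ℕ) :
    rn M d (List.replicate k true ++ w) j = ((M j).rot ^ k) (rn M d w j) := by
  induction k with
  | zero => simp
  | succ k ih =>
    rw [List.replicate_succ, List.cons_append, rn_true, ih, pow_succ', Equiv.Perm.mul_apply]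

/-- Adding `k` letters `true`. -/
def rep (k : ℕ) : LD M d → LD M d :=
  Quotient.map (fun w => List.replicate k true ++ w) (by
    intro w w' h
    refine Eventually.mono h fun j hj => ?_
    rw [rn_rep, rn_rep, hj])

lemma rep_mk (k : ℕ) (w : List Bool) :
    rep M d k (Quotient.mk (st M d) w) = Quotient.mk (st M d) (List.replicate k true ++ w) := rfl

lemma rot_pow_factorial {Δ : ℕ} (hM : ∀ j, (M j).Pre Δ) (j : ℕ) (e : D j) :
    ((M j).rot ^ Δ.factorial) e = e := by
  have h1 := (hM j).val_pos e
  have h2 := (hM j).val_le e
  obtain ⟨k, hk⟩ := Nat.dvd_factorial h1 h2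
  rw [hk, ← iterate_eq_pow']
  exact (Function.isPeriodicPt_minimalPeriod (M j).rot e).mul_const k

variable {Δ : ℕ} (hM : ∀ j, (M j).Pre Δ)

/-- The limit map. -/
def lim : CMap (LD M d) where
  rot :=
    { toFun := cons M d true
      invFun := rep M d (Δ.factorial - 1)
      left_inv := by
        intro p
        induction p using Quotient.inductionOn with
        | h w =>
        rw [cons_mk, rep_mk, mk_eq]
        refine Eventually.of_forall fun j => ?_
        rw [rn_rep, rn_true, ← Equiv.Perm.mul_apply, ← pow_succ,
          Nat.sub_add_cancel (Nat.one_le_iff_ne_zero.2 (Nat.factorial_ne_zero _)),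
          rot_pow_factorial M hM]
      right_inv := by
        intro p
        induction p using Quotient.inductionOn with
        | h w =>
        rw [rep_mk, cons_mk, mk_eq]
        refine Eventually.of_forall fun j => ?_
        rw [rn_true, rn_rep, ← Equiv.Perm.mul_apply, ← pow_succ',
          Nat.sub_add_cancel (Nat.one_le_iff_ne_zero.2 (Nat.factorial_ne_zero _)),
          rot_pow_factorial M hM] }
  inv :=
    { toFun := cons M d false
      invFun := cons M d false
      left_inv := by
        intro p
        induction p using Quotient.inductionOn with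
        | h w =>
        rw [cons_mk, cons_mk, mk_eq]
        exact Eventually.of_forall fun j => by rw [rn_false, rn_false, CMap.inv_inv']
      right_inv := by
        intro p
        induction p using Quotient.inductionOn with
        | h w =>
        rw [cons_mk, cons_mk, mk_eq]
        exact Eventually.of_forall fun j => by rw [rn_false, rn_false, CMap.inv_inv'] }
  inv_inv := by
    intro p
    induction p using Quotient.inductionOn with
    | h w =>
    change cons M d false (cons M d false (Quotient.mk (st M d) w)) = Quotient.mk (st M d) w
    rw [cons_mk, cons_mk, mk_eq]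
    exact Eventually.of_forall fun j => by rw [rn_false, rn_false, CMap.inv_inv']
  inv_ne := by
    intro p
    induction p using Quotient.inductionOn with
    | h w =>
    change cons M d false (Quotient.mk (st M d) w) ≠ Quotient.mk (st M d) w
    rw [cons_mk, Ne, mk_eq]
    intro h
    obtain ⟨j, hj⟩ := h.exists
    rw [rn_false] at hj
    exact (M j).inv_ne _ hj

lemma lim_run (w : List Bool) : (lim M d hM).run w (Quotient.mk (st M d) []) =
    Quotient.mk (st M d) w := by
  induction w with
  | nil => rfl
  | cons b w ih =>
    have h1 : (lim M d hM).run (b :: w) (Quotient.mk (st M d) []) =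
        if b then (lim M d hM).rot ((lim M d hM).run w (Quotient.mk (st M d) []))
        else (lim M d hM).inv ((lim M d hM).run w (Quotient.mk (st M d) [])) := rfl
    rw [h1, ih]
    cases b
    · rfl
    · rfl

end LimitL1

open LimitL1 in
theorem limit : LimitStatement := by
  intro Δ D M d hM
  refine ⟨LD M d, lim M d hM, Quotient.mk (st M d) [], fun e => ?_, fun L N => ?_⟩
  · induction e using Quotient.inductionOn with
    | h w => exact ⟨w, lim_run M d hM w⟩
  · -- finitely many words
    have hfin : Set.Finite {w : List Bool | w.length ≤ L} := List.finite_length_le Bool L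
    have hev : ∀ᶠ j in (hyperfilter ℕ : Filter ℕ), ∀ w ∈ {w : List Bool | w.length ≤ L},
        ∀ w' ∈ {w : List Bool | w.length ≤ L},
        (rn M d w j = rn M d w' j ↔ Quotient.mk (st M d) w = Quotient.mk (st M d) w') := by
      rw [Filter.eventually_all_finite hfin]
      intro w _
      rw [Filter.eventually_all_finite hfin]
      intro w' _
      by_cases h : Quotient.mk (st M d) w = Quotient.mk (st M d) w'
      · refine ((mk_eq M d).1 h).mono fun j hj => ?_
        exact ⟨fun _ => h, fun _ => hj⟩
      · have h' := h
        rw [mk_eq, ← Ultrafilter.eventually_not] at h'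
        exact h'.mono fun j hj => ⟨fun h1 => absurd h1 hj, fun h1 => absurd h1 h⟩
    have hN : ∀ᶠ j in (hyperfilter ℕ : Filter ℕ), N ≤ j := by
      have h1 : ∀ᶠ j in (cofinite : Filter ℕ), N ≤ j := by
        rw [Nat.cofinite_eq_atTop]
        exact eventually_ge_atTop N
      exact h1.filter_mono hyperfilter_le_cofinite
    obtain ⟨j, hj, hjN⟩ := (hev.and hN).exists
    refine ⟨j, hjN, fun w w' hw hw' => ?_⟩
    rw [lim_run, lim_run]
    exact (hj w hw w' hw').symm

end Tess
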