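import Pool.Agent.Work.MP_8c67d3_co.Transfer

/-!
Block L5: 3-connectivity passes to the limit.
-/

set_option autoImplicit false

namespace Tess

open CMap

lemma adj_symm {D : Type} {M : CMap D} {u v : M.V} (h : M.Adj u v) : M.Adj v u := by
  obtain ⟨d, h1, h2⟩ := h
  exact ⟨M.inv d, h2, by rw [M.inv_inv']; exact h1⟩

/-- `Reach` is symmetric outside of `S`. -/
lemma reach_symm {D : Type} {M : CMap D} {S : Set M.V} {u v : M.V} (hu : u ∉ S)
    (h : M.Reach S u v) : M.Reach S v u := by
  have key : v ∉ S ∧ M.Reach S v u := by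
    induction h with
    | refl => exact ⟨hu, Relation.ReflTransGen.refl⟩
    | tail _ hbc ih =>
      exact ⟨hbc.2, Relation.ReflTransGen.head ⟨adj_symm hbc.1, ih.1⟩ ih.2⟩
  exact key.2

/-- The main step: a finite component gives a contradiction. -/
lemma no_finite_comp {Δ : ℕ} {D' : Type} {M' : CMap D'} {d' : D'}
    (hgen : ∀ e, ∃ w, M'.run w d' = e)
    (happ : ∀ L, ∃ (D : Type) (M : CMap D) (d : D), M.Pre Δ ∧
      (∀ u v a b : M.V, a ≠ u → a ≠ v → b ≠ u → b ≠ v → M.Reach {u, v} a b) ∧
      Agree L M' d' M d) (u v a b : M'.V) (hau : a ≠ u) (hav : a ≠ v) (hbu : b ≠ u) (hbv : b ≠ v)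
    (hfin : {w | M'.Reach {u, v} a w}.Finite) : M'.Reach {u, v} a b := by
  classical
  by_contra hb
  have hex : ∀ x : M'.V, ∃ w, M'.vert (M'.run w d') = x := by
    intro x
    obtain ⟨e, rfl⟩ := M'.vert_surj x
    obtain ⟨w, rfl⟩ := hgen e
    exact ⟨w, rfl⟩
  choose wv hwv using hex
  let T : Finset M'.V := hfin.toFinset ∪ {u, v, b}
  obtain ⟨N, hN⟩ : ∃ N : ℕ, ∀ x ∈ T, (wv x).length ≤ N :=
    ⟨T.sup fun x => (wv x).length, fun x hx => Finset.le_sup (f := fun x => (wv x).length) hx⟩
  have hTK : ∀ x, M'.Reach {u, v} a x → x ∈ T := fun x hx =>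
    Finset.mem_union_left _ (hfin.mem_toFinset.2 hx)
  have hTu : u ∈ T := Finset.mem_union_right _ (by simp)
  have hTv : v ∈ T := Finset.mem_union_right _ (by simp)
  have hTb : b ∈ T := Finset.mem_union_right _ (by simp)
  have hTa : a ∈ T := hTK a Relation.ReflTransGen.refl
  obtain ⟨D, M, d, hM, h3, hag⟩ := happ (N + 2 * Δ + 2)
  let τ : M'.V → M.V := fun x => M.vert (M.run (wv x) d)
  -- transfer of equalities
  have htr : ∀ (w : List Bool) (x : M'.V), w.length ≤ N + Δ + 1 → x ∈ T →
      (M.vert (M.run w d) = τ x ↔ M'.vert (M'.run w d') = x) := by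
    intro w x hw hx
    have h1 := hag.vert_iff (Δ := Δ) (w := w) (w' := wv x) (hM.val_pos _) (hM.val_le _)
      (by omega) (by have := hN x hx; omega)
    rw [hwv] at h1
    exact h1.symm
  have hinj : ∀ x ∈ T, ∀ y ∈ T, τ x = τ y → x = y := by
    intro x hx y hy hxy
    have h1 := (htr (wv x) y (by have := hN x hx; omega) hy).1 hxy
    rwa [hwv] at h1
  have hne : ∀ x ∈ T, ∀ y ∈ T, x ≠ y → τ x ≠ τ y := fun x hx y hy hxy h => hxy (hinj x hx y hy h)
  have hreach := h3 (τ u) (τ v) (τ a) (τ b) (hne a hTa u hTu hau) (hne a hTa v hTv hav)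
    (hne b hTb u hTu hbu) (hne b hTb v hTv hbv)
  -- everything reachable lies over the component of `a`
  have key : ∀ y, M.Reach {τ u, τ v} (τ a) y → ∃ x, M'.Reach {u, v} a x ∧ τ x = y := by
    intro y hy
    induction hy with
    | refl => exact ⟨a, Relation.ReflTransGen.refl, rfl⟩
    | tail _ hbc ih =>
      obtain ⟨x, hx, rfl⟩ := ih
      obtain ⟨⟨e, he1, he2⟩, hc⟩ := hbc
      obtain ⟨i, hi, hi'⟩ := exists_word_of_vert_eq (hM.val_pos _) he1.symm
      have hxT := hTK x hx
      have hlen : (false :: (rw' i ++ wv x)).length ≤ N + Δ + 1 := by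
        have h4 := hM.val_le (M.run (wv x) d)
        have h5 := hN x hxT
        rw [List.length_cons, List.length_append, length_rw']
        omega
      -- the corresponding neighbour of `x`
      let x' : M'.V := M'.vert (M'.run (false :: (rw' i ++ wv x)) d')
      have hadj : M'.Adj x x' := by
        refine ⟨M'.run (rw' i ++ wv x) d', ?_, rfl⟩
        rw [run_rw'_append, vert_rot_pow, hwv]
      have hy : M.vert (M.run (false :: (rw' i ++ wv x)) d) = M.vert (M.inv e) := by
        rw [run_cons_false, hi']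
      rw [← he2] at hc ⊢
      by_cases hx' : x' ∈ ({u, v} : Set M'.V)
      · exfalso
        apply hc
        rcases hx' with hx' | hx'
        · left
          rw [← hy]
          exact (htr _ u hlen hTu).2 hx'
        · right
          rw [Set.mem_singleton_iff, ← hy]
          exact (htr _ v hlen hTv).2 hx'
      · have hr : M'.Reach {u, v} a x' := Relation.ReflTransGen.tail hx ⟨hadj, hx'⟩
        refine ⟨x', hr, ?_⟩
        rw [← hy]
        exact ((htr _ x' hlen (hTK x' hr)).2 rfl).symm
  obtain ⟨x, hx, hxb⟩ := key _ hreach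
  rw [hinj x (hTK x hx) b hTb hxb] at hx
  exact hb hx

theorem threeConnLimit : ThreeConnLimitStatement := by
  intro Δ D' M' d' hgen _ hone happ u v a b hau hav hbu hbv
  have hS : ({u, v} : Set M'.V).Finite := Set.toFinite _
  have ha : a ∉ ({u, v} : Set M'.V) := by
    rintro (h | h)
    · exact hau h
    · exact hav h
  have hb : b ∉ ({u, v} : Set M'.V) := by
    rintro (h | h)
    · exact hbu h
    · exact hbv h
  by_cases h1 : {w | M'.Reach {u, v} a w}.Finite
  · exact no_finite_comp hgen happ u v a b hau hav hbu hbv h1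
  · by_cases h2 : {w | M'.Reach {u, v} b w}.Finite
    · exact reach_symm hb (no_finite_comp hgen happ u v b a hbu hbv hau hav h2)
    · exact (hone {u, v} hS).2 a b ha hb h1 h2

end Tess
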